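import Pool.Agent.helper5.LDH.Spec
import Pool.Agent.helper63.ED.LC

/-!
# Project LDH (MP_4467b5_nt), row SEP: a well spaced subset
-/

set_option autoImplicit false

open Complex MeasureTheory

namespace Pool.Agent.LDH

open Pool.Agent.helper84.DM Pool.Agent.helper78.ED Pool.Agent.DH

theorem SEP : SEP_stmt := by
  classical
  obtain ⟨C, hC, hloc⟩ := local_count
  refine ⟨2 * C, by positivity, ?_⟩
  intro T hT Z hZ
  have hlog : 0 ≤ C * Real.log T := mul_nonneg hC.le (Real.log_nonneg (by linarith))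
  obtain ⟨f, hf⟩ : ∃ f : ℂ → ℕ, ∀ ρ, f ρ = ⌊ρ.im⌋₊ := ⟨fun ρ => ⌊ρ.im⌋₊, fun _ => rfl⟩
  have hfl : ∀ ρ ∈ Z, (f ρ : ℝ) ≤ ρ.im ∧ ρ.im < f ρ + 1 := by
    intro ρ hρ
    have h1 := (hZ ρ hρ).2.2.1
    rw [hf]
    exact ⟨Nat.floor_le (by linarith), Nat.lt_floor_add_one _⟩
  -- one of the two colours
  obtain ⟨e, he⟩ : ∃ e : ℕ, Z.card ≤ 2 * (Z.filter (fun ρ => f ρ % 2 = e)).card := by
    have h1 : (Z.filter (fun ρ => f ρ % 2 = 0)).card + (Z.filter (fun ρ => ¬ f ρ % 2 = 0)).card = Z.card :=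
      Finset.card_filter_add_card_filter_not _
    have h2 : Z.filter (fun ρ => ¬ f ρ % 2 = 0) = Z.filter (fun ρ => f ρ % 2 = 1) := by
      refine Finset.filter_congr fun ρ _ => ?_
      omega
    rw [h2] at h1
    by_cases h : Z.card ≤ 2 * (Z.filter (fun ρ => f ρ % 2 = 0)).card
    · exact ⟨0, h⟩
    · exact ⟨1, by omega⟩
  obtain ⟨Y, hY⟩ : ∃ Y : Finset ℂ, Y = Z.filter (fun ρ => f ρ % 2 = e) := ⟨_, rfl⟩
  rw [← hY] at he
  have hYZ : ∀ ρ ∈ Y, ρ ∈ Z ∧ f ρ % 2 = e := by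
    intro ρ hρ
    rw [hY, Finset.mem_filter] at hρ
    exact hρ
  have hfib : ∀ k ∈ Y.image f, (Y.filter (fun ρ => f ρ = k)).card ≤ ⌊C * Real.log T⌋₊ := by
    intro k hk
    obtain ⟨ρ₀, hρ₀, rfl⟩ := Finset.mem_image.1 hk
    have h0 := hfl ρ₀ (hYZ ρ₀ hρ₀).1
    have h0' := hZ ρ₀ (hYZ ρ₀ hρ₀).1
    have h1 : (loc Z (f ρ₀ : ℝ) : ℝ) ≤ C * Real.log T := by
      refine hloc T hT Z (fun ρ hρ => ⟨(hZ ρ hρ).1, (hZ ρ hρ).2.1⟩) _ ?_ ?_
      · linarith [h0.2, h0'.2.2.1]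
      · linarith [h0.1, h0'.2.2.2]
    have h2 : (Y.filter (fun ρ => f ρ = f ρ₀)).card ≤ loc Z (f ρ₀ : ℝ) := by
      unfold loc
      refine Finset.card_le_card fun ρ hρ => ?_
      rw [Finset.mem_filter] at hρ ⊢
      have h3 := hfl ρ (hYZ ρ hρ.1).1
      rw [hρ.2] at h3
      exact ⟨(hYZ ρ hρ.1).1, h3.1, h3.2.le⟩
    exact Nat.le_floor ((Nat.cast_le.2 h2).trans h1)
  have hcard : Y.card ≤ ⌊C * Real.log T⌋₊ * (Y.image f).card := Finset.card_le_mul_card_image Y _ hfib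
  -- the choice
  have hch : ∀ k : ℕ, ∃ ρ : ℂ, k ∈ Y.image f → ρ ∈ Y ∧ f ρ = k := by
    intro k
    by_cases hk : k ∈ Y.image f
    · obtain ⟨ρ, hρ, h⟩ := Finset.mem_image.1 hk
      exact ⟨ρ, fun _ => ⟨hρ, h⟩⟩
    · exact ⟨0, fun h => absurd h hk⟩
  choose g hg using hch
  have hW : ∀ ρ ∈ (Y.image f).image g, ρ ∈ Y ∧ g (f ρ) = ρ := by
    intro ρ hρ
    obtain ⟨k, hk, rfl⟩ := Finset.mem_image.1 hρ
    exact ⟨(hg k hk).1, by rw [(hg k hk).2]⟩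
  have hWc : ((Y.image f).image g).card = (Y.image f).card := by
    refine Finset.card_image_of_injOn fun k hk k' hk' h => ?_
    rw [← (hg k hk).2, ← (hg k' hk').2, h]
  refine ⟨(Y.image f).image g, fun ρ hρ => (hYZ ρ (hW ρ hρ).1).1, ?_, ?_⟩
  · intro ρ hρ ρ' hρ' hne
    have h1 := hYZ ρ (hW ρ hρ).1
    have h1' := hYZ ρ' (hW ρ' hρ').1
    have h2 : f ρ ≠ f ρ' := by
      intro h
      apply hne
      rw [← (hW ρ hρ).2, ← (hW ρ' hρ').2, h]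
    have h3 := hfl ρ h1.1
    have h3' := hfl ρ' h1'.1
    have hd : f ρ + 2 ≤ f ρ' ∨ f ρ' + 2 ≤ f ρ := by omega
    rcases hd with hd | hd
    · have h4 : (f ρ : ℝ) + 2 ≤ f ρ' := by exact_mod_cast hd
      rw [le_abs]
      right
      linarith
    · have h4 : (f ρ' : ℝ) + 2 ≤ f ρ := by exact_mod_cast hd
      rw [le_abs]
      left
      linarith
  · rw [hWc]
    have h1 : (Y.card : ℝ) ≤ C * Real.log T * (Y.image f).card := by
      have h2 : (Y.card : ℝ) ≤ (⌊C * Real.log T⌋₊ : ℝ) * (Y.image f).card := by exact_mod_cast hcard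
      exact h2.trans (mul_le_mul_of_nonneg_right (Nat.floor_le hlog) (Nat.cast_nonneg _))
    have h2 : (Z.card : ℝ) ≤ 2 * Y.card := by exact_mod_cast he
    calc (Z.card : ℝ) ≤ 2 * Y.card := h2
      _ ≤ 2 * (C * Real.log T * (Y.image f).card) := by linarith
      _ = 2 * C * Real.log T * (Y.image f).card := by ring

end Pool.Agent.LDH
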