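import Pool.Agent.helper5.LDH.Spec
import Pool.Agent.helper63.ED.LC
import Pool.Agent.helper97.ED.FN
import Pool.Agent.helper15.DH.Assembly

/-!
# Project LDH (MP_4467b5_nt), row FIN: the density theorem for all intervals
-/

set_option autoImplicit false

open Complex MeasureTheory

namespace Pool.Agent.LDH

open Pool.Agent.helper84.DM Pool.Agent.helper78.ED Pool.Agent.DH

/-- the logarithm and a power -/
theorem FIN_log {T η : ℝ} (hT : 1 ≤ T) (hη : 0 < η) : Real.log T ≤ T ^ η / η := Real.log_le_rpow_div (by linarith) hη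

theorem FIN (hCOR : COR_stmt) : FIN_stmt := by
  classical
  intro s₀ ε hs hε
  obtain ⟨C₁, hC₁, h1⟩ := Pool.Agent.DH.fin s₀ ε hs hε
  obtain ⟨C₂, T₀, hC₂, h2⟩ := hCOR s₀ (ε / 16) hs (by positivity)
  obtain ⟨C₃, hC₃, h3⟩ := mult_le
  obtain ⟨T₁, hT₁⟩ : ∃ T₁ : ℝ, T₁ = max T₀ 2 := ⟨_, rfl⟩
  obtain ⟨C₄, hC₄, h4⟩ := FN_low (2 * T₁)
  have hT₁0 : T₀ ≤ T₁ := by rw [hT₁]; exact le_max_left _ _
  have hT₁2 : 2 ≤ T₁ := by rw [hT₁]; exact le_max_right _ _
  -- the constant of case (b)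
  obtain ⟨C₅, hC₅⟩ : ∃ C₅ : ℝ, C₅ = C₂ * (C₃ * (16 / ε)) := ⟨_, rfl⟩
  have hC₅0 : 0 < C₅ := by rw [hC₅]; positivity
  refine ⟨C₁ * 2 ^ (2 + ε) + C₅ + C₄, by positivity, ?_⟩
  intro T U H σ hT hU hH hUH hσ hσ1 Z hZ
  have hH1 : 1 ≤ H := (Real.one_le_rpow hT (by norm_num)).trans hH
  have hH0 : 0 < H := by linarith
  have hx0 : 0 ≤ 2 * (1 - σ) + ε := by linarith
  have hHx : 1 ≤ H ^ (2 * (1 - σ) + ε) := Real.one_le_rpow hH1 hx0
  have hHx0 : 0 < H ^ (2 * (1 - σ) + ε) := by linarith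
  have p2 : (0 : ℝ) < 2 ^ (2 + ε) := by positivity
  by_cases hc : U < H
  · -- case (a)
    have ha := h1 (2 * H) σ (by linarith) hσ hσ1 Z (fun ρ hρ => by
      obtain ⟨a, b, c, d⟩ := hZ ρ hρ
      exact ⟨a, b, by linarith, by linarith⟩)
    have hb : (2 * H) ^ (2 * (1 - σ) + ε) ≤ 2 ^ (2 + ε) * H ^ (2 * (1 - σ) + ε) := by
      rw [Real.mul_rpow (by norm_num) hH0.le]
      refine mul_le_mul_of_nonneg_right ?_ hHx0.le
      refine Real.rpow_le_rpow_of_exponent_le (by norm_num) ?_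
      linarith
    calc ∑ ρ ∈ Z, (mult ρ : ℝ) ≤ C₁ * (2 * H) ^ (2 * (1 - σ) + ε) := ha
      _ ≤ C₁ * (2 ^ (2 + ε) * H ^ (2 * (1 - σ) + ε)) := mul_le_mul_of_nonneg_left hb hC₁.le
      _ = C₁ * 2 ^ (2 + ε) * H ^ (2 * (1 - σ) + ε) := by ring
      _ ≤ (C₁ * 2 ^ (2 + ε) + C₅ + C₄) * H ^ (2 * (1 - σ) + ε) := by
        refine mul_le_mul_of_nonneg_right ?_ hHx0.le
        linarith
  · push Not at hc
    by_cases hU1 : T₁ ≤ U
    · -- case (b)
      have hU2 : 2 ≤ U := hT₁2.trans hU1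
      have hUT : U ≤ T := by linarith
      have hT2 : 2 ≤ T := by linarith
      have hcard := h2 U H σ (hT₁0.trans hU1)
        ((Real.rpow_le_rpow (by linarith) hUT (by norm_num)).trans hH) hc hσ hσ1 Z (fun ρ hρ => by
          obtain ⟨a, b, c, d⟩ := hZ ρ hρ
          exact ⟨a, b, c.le, d⟩)
      have hT0 : 0 < T := by linarith
      have hmult : ∀ ρ ∈ Z, (mult ρ : ℝ) ≤ C₃ * (T ^ (ε / 16) * (16 / ε)) := by
        intro ρ hρ
        obtain ⟨a, b, c, d⟩ := hZ ρ hρ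
        refine (h3 T hT2 ρ a (by linarith) (by linarith)).trans ?_
        refine mul_le_mul_of_nonneg_left ?_ hC₃.le
        refine (FIN_log hT (show 0 < ε / 16 by positivity)).trans (le_of_eq ?_)
        field_simp
      have hsum : ∑ ρ ∈ Z, (mult ρ : ℝ) ≤ (Z.card : ℝ) * (C₃ * (T ^ (ε / 16) * (16 / ε))) := by
        refine (Finset.sum_le_sum hmult).trans (le_of_eq ?_)
        rw [Finset.sum_const, nsmul_eq_mul]
      have hUe : U ^ (ε / 16) ≤ T ^ (ε / 16) := Real.rpow_le_rpow (by linarith) hUT (by positivity)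
      have hTH : T ^ (ε / 16) * T ^ (ε / 16) ≤ H ^ ε := by
        rw [← Real.rpow_add hT0]
        have e1 : T ^ (ε / 16 + ε / 16) = (T ^ (1 / 4 : ℝ)) ^ (ε / 2) := by
          rw [← Real.rpow_mul hT0.le]
          congr 1
          ring
        rw [e1]
        calc (T ^ (1 / 4 : ℝ)) ^ (ε / 2) ≤ H ^ (ε / 2) := Real.rpow_le_rpow (by positivity) hH (by positivity)
          _ ≤ H ^ ε := Real.rpow_le_rpow_of_exponent_le hH1 (by linarith)
      have hHs : 0 < H ^ (2 * (1 - σ)) := Real.rpow_pos_of_pos hH0 _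
      have hTe : 0 < T ^ (ε / 16) := Real.rpow_pos_of_pos hT0 _
      calc ∑ ρ ∈ Z, (mult ρ : ℝ) ≤ (Z.card : ℝ) * (C₃ * (T ^ (ε / 16) * (16 / ε))) := hsum
        _ ≤ (C₂ * T ^ (ε / 16) * H ^ (2 * (1 - σ))) * (C₃ * (T ^ (ε / 16) * (16 / ε))) := by
          refine mul_le_mul_of_nonneg_right (hcard.trans ?_) (by positivity)
          refine mul_le_mul_of_nonneg_right (mul_le_mul_of_nonneg_left hUe hC₂.le) hHs.le
        _ = C₅ * (H ^ (2 * (1 - σ)) * (T ^ (ε / 16) * T ^ (ε / 16))) := by rw [hC₅]; ring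
        _ ≤ C₅ * (H ^ (2 * (1 - σ)) * H ^ ε) := by
          refine mul_le_mul_of_nonneg_left (mul_le_mul_of_nonneg_left hTH hHs.le) hC₅0.le
        _ = C₅ * H ^ (2 * (1 - σ) + ε) := by rw [Real.rpow_add hH0]
        _ ≤ (C₁ * 2 ^ (2 + ε) + C₅ + C₄) * H ^ (2 * (1 - σ) + ε) := by
          refine mul_le_mul_of_nonneg_right ?_ hHx0.le
          have : 0 < C₁ * 2 ^ (2 + ε) := by positivity
          linarith
    · -- case (c)
      push Not at hU1
      have hlow := h4 Z (fun ρ hρ => by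
        obtain ⟨a, b, c, d⟩ := hZ ρ hρ
        exact ⟨a, by linarith, by linarith, by linarith⟩)
      calc ∑ ρ ∈ Z, (mult ρ : ℝ) ≤ C₄ := hlow
        _ ≤ C₄ * H ^ (2 * (1 - σ) + ε) := le_mul_of_one_le_right hC₄.le hHx
        _ ≤ (C₁ * 2 ^ (2 + ε) + C₅ + C₄) * H ^ (2 * (1 - σ) + ε) := by
          refine mul_le_mul_of_nonneg_right ?_ hHx0.le
          have : 0 < C₁ * 2 ^ (2 + ε) := by positivity
          linarith

end Pool.Agent.LDH
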